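import Pool.Agent.Helper83.EIN2.Goals

/-!
# Project EIN2 (MP_06d934_gt): packet MMB (bounds in the chart `MM`)
-/

set_option autoImplicit false

namespace Pool.Agent.Helper93.EIN2

open Pool.Agent.Helper83.EIN Pool.Agent.Helper83.EIN2

/-- Absorption of a quadratic inequality. -/
theorem absorb {κ M S t : ℝ} (hκ : 0 < κ) (hM : 0 ≤ M) (ht : 0 < t)
    (h : κ * S ^ 2 ≤ t * (M * S + M * t)) : S ≤ (2 * M / κ + 1) * t := by
  by_contra hc
  push Not at hc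
  have h1 : 0 ≤ 2 * M / κ := by positivity
  have h1' := mul_nonneg h1 ht.le
  have h2 : t < S := by linarith
  have hS : 0 < S := ht.trans h2
  have h3 : t * (M * t) ≤ t * (M * S) :=
    mul_le_mul_of_nonneg_left (mul_le_mul_of_nonneg_left h2.le hM) ht.le
  have h4 : S * (κ * S) ≤ S * (2 * M * t) := by nlinarith
  have h5 : κ * S ≤ 2 * M * t := le_of_mul_le_mul_left h4 hS
  have h6 : S ≤ 2 * M / κ * t := by
    rw [div_mul_eq_mul_div, le_div_iff₀ hκ]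
    linarith
  linarith

/-- The cosines of a nearly degenerate triangle: `D₂ = 1 - cs w y z`, `D₃ = 1 - cs w z y`,
`D₀ = 1 + cs y z w`, `E = y + z - w`. -/
theorem fac {c w y z : ℝ} (hc : 0 < c) (hc1 : c ≤ 1) (hw : 1 / 2 ≤ w) (hy : c / 2 ≤ y)
    (hz : c / 2 ≤ z) (hw2 : w ≤ 2) (hy2 : y ≤ 2) (hz2 : z ≤ 2) (h1 : c ≤ z + w - y)
    (h2 : c ≤ y + w - z) (hE : 0 ≤ y + z - w) :
    2 * w * y * (1 - cs w y z) = (y + z - w) * (z + w - y) ∧
    2 * w * z * (1 - cs w z y) = (y + z - w) * (y + w - z) ∧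
    2 * y * z * (1 + cs y z w) = (y + z - w) * (y + z + w) ∧
    c / 8 * (y + z - w) ≤ 1 - cs w y z ∧ 1 - cs w y z ≤ 12 / c ^ 2 * (y + z - w) ∧
    c / 8 * (y + z - w) ≤ 1 - cs w z y ∧ 1 - cs w z y ≤ 12 / c ^ 2 * (y + z - w) ∧
    0 ≤ 1 + cs y z w ∧ 1 + cs y z w ≤ 12 / c ^ 2 * (y + z - w) := by
  have pw : 0 < w := by linarith
  have py : 0 < y := by linarith
  have pz : 0 < z := by linarith
  have e1 : 2 * w * y * (1 - cs w y z) = (y + z - w) * (z + w - y) := by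
    rw [one_sub_cs pw py]
    field_simp
    ring
  have e2 : 2 * w * z * (1 - cs w z y) = (y + z - w) * (y + w - z) := by
    rw [one_sub_cs pw pz]
    field_simp
    ring
  have e3 : 2 * y * z * (1 + cs y z w) = (y + z - w) * (y + z + w) := by
    rw [one_add_cs py pz]
    field_simp
  have low : ∀ {y z : ℝ}, c / 2 ≤ y → y ≤ 2 → c ≤ z + w - y → 0 ≤ y + z - w →
      c / 8 * (y + z - w) ≤ 1 - cs w y z := by
    intro y z hy hy2 h1 hE
    have py : 0 < y := by linarith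
    rw [one_sub_cs pw py, le_div_iff₀ (by positivity)]
    have k1 : 2 * w * y ≤ 8 := by nlinarith
    have k2 : c / 8 * (y + z - w) * (2 * w * y) ≤ c / 8 * (y + z - w) * 8 :=
      mul_le_mul_of_nonneg_left k1 (by positivity)
    nlinarith [mul_le_mul_of_nonneg_left h1 hE]
  have upp : ∀ {y z : ℝ}, c / 2 ≤ y → z ≤ 2 → 0 ≤ y + z - w →
      1 - cs w y z ≤ 12 / c ^ 2 * (y + z - w) := by
    intro y z hy hz2 hE
    have py : 0 < y := by linarith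
    rw [one_sub_cs pw py, div_le_iff₀ (by positivity)]
    have k1 : c / 2 ≤ 2 * w * y := by nlinarith
    have k2 : 4 ≤ 12 / c ^ 2 * (2 * w * y) := by
      rw [div_mul_eq_mul_div, le_div_iff₀ (by positivity)]
      nlinarith
    have k3 : (y + z - w) * 4 ≤ (y + z - w) * (12 / c ^ 2 * (2 * w * y)) :=
      mul_le_mul_of_nonneg_left k2 hE
    have k4 : (y + z - w) * (z + w - y) ≤ (y + z - w) * 4 :=
      mul_le_mul_of_nonneg_left (by linarith) hE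
    calc (z - w + y) * (z + w - y) = (y + z - w) * (z + w - y) := by ring
      _ ≤ (y + z - w) * (12 / c ^ 2 * (2 * w * y)) := k4.trans k3
      _ = 12 / c ^ 2 * (y + z - w) * (2 * w * y) := by ring
  have hE' : 0 ≤ z + y - w := by linarith
  have l2 := low hz hz2 h2 hE'
  have u2 := upp hz hy2 hE'
  rw [add_comm z y] at l2 u2
  refine ⟨e1, e2, e3, low hy hy2 h1 hE, upp hy hz2 hE, l2, u2, ?_, ?_⟩
  · rw [one_add_cs py pz]
    positivity
  · rw [one_add_cs py pz, div_le_iff₀ (by positivity)]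
    have k1 : c ^ 2 / 4 ≤ y * z := by nlinarith
    have k2 : 6 ≤ 12 / c ^ 2 * (2 * y * z) := by
      rw [div_mul_eq_mul_div, le_div_iff₀ (by positivity)]
      nlinarith
    have k3 : (y + z - w) * 6 ≤ (y + z - w) * (12 / c ^ 2 * (2 * y * z)) :=
      mul_le_mul_of_nonneg_left k2 hE
    have k4 : (y + z - w) * (y + z + w) ≤ (y + z - w) * 6 :=
      mul_le_mul_of_nonneg_left (by linarith) hE
    calc (y + z - w) * (y + z + w) ≤ (y + z - w) * (12 / c ^ 2 * (2 * y * z)) := k4.trans k3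
      _ = 12 / c ^ 2 * (y + z - w) * (2 * y * z) := by ring

/-- `E₀ + E₁ ≤ C t`. -/
theorem stepA {a₁ k K C1 a t E₀ E₁ A B A' B' D₂ D₃ D₀ F₂ F₃ D₁ : ℝ}
    (ha₁ : 0 < a₁) (h1 : a₁ ≤ a) (h2 : a₁ ≤ 1 - a) (hk : 0 < k) (hK : 0 ≤ K) (hC1 : 0 ≤ C1)
    (ht : 0 < t) (hE0 : 0 ≤ E₀) (hE1 : 0 ≤ E₁)
    (hA : |A| ≤ 1) (hB : |B| ≤ 1) (hA' : |A'| ≤ 1) (hB' : |B'| ≤ 1)
    (hAA : |A + A'| ≤ C1 * t) (hBB : |B + B'| ≤ C1 * t)
    (l2 : k * E₀ ≤ D₂) (u2 : D₂ ≤ K * E₀) (m2 : D₂ ≤ 2) (l3 : k * E₀ ≤ D₃) (u3 : D₃ ≤ K * E₀)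
    (u0 : D₀ ≤ K * E₀) (l2' : k * E₁ ≤ F₂) (u2' : F₂ ≤ K * E₁) (m2' : F₂ ≤ 2)
    (l3' : k * E₁ ≤ F₃) (u3' : F₃ ≤ K * E₁) (u0' : D₁ ≤ K * E₁)
    (s0 : D₂ * D₃ = t * (a * (D₀ - 1) + (1 - a) * (D₁ - 1) + (1 - D₂) * (1 - D₃) -
      (1 - a) * (A * (1 - D₂) + B * (1 - D₃))))
    (s1 : F₂ * F₃ = t * (a * (D₀ - 1) + (1 - a) * (D₁ - 1) + (1 - F₂) * (1 - F₃) -
      a * (A' * (1 - F₂) + B' * (1 - F₃)))) :
    E₀ + E₁ ≤ (2 * (6 * K + 2 * C1) / (a₁ * k ^ 2 / 2) + 1) * t := by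
  have ha : 0 < a := by linarith
  have hb : 0 < 1 - a := by linarith
  refine absorb (by positivity) (by positivity) ht ?_
  have d2 : 0 ≤ D₂ := (mul_nonneg hk.le hE0).trans l2
  have d3 : 0 ≤ D₃ := (mul_nonneg hk.le hE0).trans l3
  have f2 : 0 ≤ F₂ := (mul_nonneg hk.le hE1).trans l2'
  have f3 : 0 ≤ F₃ := (mul_nonneg hk.le hE1).trans l3'
  have q0 : (k * E₀) * (k * E₀) ≤ D₂ * D₃ := mul_le_mul l2 l3 (mul_nonneg hk.le hE0) d2
  have q1 : (k * E₁) * (k * E₁) ≤ F₂ * F₃ := mul_le_mul l2' l3' (mul_nonneg hk.le hE1) f2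
  have r0 : a₁ * ((k * E₀) * (k * E₀)) ≤ a * (D₂ * D₃) :=
    mul_le_mul h1 q0 (mul_self_nonneg _) ha.le
  have r1 : a₁ * ((k * E₁) * (k * E₁)) ≤ (1 - a) * (F₂ * F₃) :=
    mul_le_mul h2 q1 (mul_self_nonneg _) hb.le
  have hl : a₁ * k ^ 2 / 2 * (E₀ + E₁) ^ 2 ≤ a * (D₂ * D₃) + (1 - a) * (F₂ * F₃) := by
    have : a₁ * k ^ 2 / 2 * (E₀ + E₁) ^ 2 ≤
        a₁ * ((k * E₀) * (k * E₀)) + a₁ * ((k * E₁) * (k * E₁)) := by
      have h : 0 ≤ a₁ * k ^ 2 / 2 * (E₀ - E₁) ^ 2 := by positivity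
      linarith
    linarith
  have hY : a * (D₂ * D₃) + (1 - a) * (F₂ * F₃) =
      t * (a * D₀ + (1 - a) * D₁ - a * (D₂ + D₃) + a * (D₂ * D₃) - (1 - a) * (F₂ + F₃) +
        (1 - a) * (F₂ * F₃) - a * (1 - a) * ((A + A') + (B + B')) +
        a * (1 - a) * (A * D₂ + B * D₃ + A' * F₂ + B' * F₃)) := by
    linear_combination a * s0 + (1 - a) * s1
  rw [hY] at hl
  refine hl.trans (mul_le_mul_of_nonneg_left ?_ ht.le)
  have ab1 : a * (1 - a) ≤ 1 :=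
    (mul_le_mul (by linarith) (by linarith) hb.le zero_le_one).trans_eq (one_mul (1 : ℝ))
  have ab0 : 0 ≤ a * (1 - a) := by positivity
  -- the terms
  have t1 : a * D₀ ≤ K * E₀ := by
    have : a * D₀ ≤ a * (K * E₀) := mul_le_mul_of_nonneg_left u0 ha.le
    have h' : a * (K * E₀) ≤ 1 * (K * E₀) :=
      mul_le_mul_of_nonneg_right (by linarith) (mul_nonneg hK hE0)
    linarith
  have t2 : (1 - a) * D₁ ≤ K * E₁ := by
    have : (1 - a) * D₁ ≤ (1 - a) * (K * E₁) := mul_le_mul_of_nonneg_left u0' hb.le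
    have h' : (1 - a) * (K * E₁) ≤ 1 * (K * E₁) :=
      mul_le_mul_of_nonneg_right (by linarith) (mul_nonneg hK hE1)
    linarith
  have t3 : 0 ≤ a * (D₂ + D₃) := by positivity
  have t4 : 0 ≤ (1 - a) * (F₂ + F₃) := by positivity
  have t5 : a * (D₂ * D₃) ≤ 2 * (K * E₀) := by
    have : D₂ * D₃ ≤ 2 * (K * E₀) := mul_le_mul m2 u3 d3 (by norm_num)
    have h' : a * (D₂ * D₃) ≤ 1 * (D₂ * D₃) :=
      mul_le_mul_of_nonneg_right (by linarith) (by positivity)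
    linarith
  have t6 : (1 - a) * (F₂ * F₃) ≤ 2 * (K * E₁) := by
    have : F₂ * F₃ ≤ 2 * (K * E₁) := mul_le_mul m2' u3' f3 (by norm_num)
    have h' : (1 - a) * (F₂ * F₃) ≤ 1 * (F₂ * F₃) :=
      mul_le_mul_of_nonneg_right (by linarith) (by positivity)
    linarith
  have t7 : -(a * (1 - a) * ((A + A') + (B + B'))) ≤ 2 * (C1 * t) := by
    have h3 := abs_le.1 hAA
    have h4 := abs_le.1 hBB
    have h5 : -((A + A') + (B + B')) ≤ 2 * (C1 * t) := by linarith [h3.1, h4.1]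
    have h6 : 0 ≤ 2 * (C1 * t) := by positivity
    calc -(a * (1 - a) * ((A + A') + (B + B'))) = a * (1 - a) * (-((A + A') + (B + B'))) := by ring
      _ ≤ a * (1 - a) * (2 * (C1 * t)) := mul_le_mul_of_nonneg_left h5 ab0
      _ ≤ 1 * (2 * (C1 * t)) := mul_le_mul_of_nonneg_right ab1 h6
      _ = 2 * (C1 * t) := one_mul _
  have t8 : a * (1 - a) * (A * D₂ + B * D₃ + A' * F₂ + B' * F₃) ≤
      2 * (K * E₀) + 2 * (K * E₁) := by
    have g1 : A * D₂ ≤ D₂ := (mul_le_mul_of_nonneg_right (abs_le.1 hA).2 d2).trans_eq (one_mul _)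
    have g2 : B * D₃ ≤ D₃ := (mul_le_mul_of_nonneg_right (abs_le.1 hB).2 d3).trans_eq (one_mul _)
    have g3 : A' * F₂ ≤ F₂ := (mul_le_mul_of_nonneg_right (abs_le.1 hA').2 f2).trans_eq (one_mul _)
    have g4 : B' * F₃ ≤ F₃ := (mul_le_mul_of_nonneg_right (abs_le.1 hB').2 f3).trans_eq (one_mul _)
    have g5 : A * D₂ + B * D₃ + A' * F₂ + B' * F₃ ≤ 2 * (K * E₀) + 2 * (K * E₁) := by linarith
    have g6 : 0 ≤ 2 * (K * E₀) + 2 * (K * E₁) := by positivity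
    calc a * (1 - a) * (A * D₂ + B * D₃ + A' * F₂ + B' * F₃) ≤
          a * (1 - a) * (2 * (K * E₀) + 2 * (K * E₁)) := mul_le_mul_of_nonneg_left g5 ab0
      _ ≤ 1 * (2 * (K * E₀) + 2 * (K * E₁)) := mul_le_mul_of_nonneg_right ab1 g6
      _ = _ := one_mul _
  have t9 : 0 ≤ K * E₀ := by positivity
  have t10 : 0 ≤ K * E₁ := by positivity
  have t11 : 0 ≤ K * t := by positivity
  have t12 : 0 ≤ C1 * (E₀ + E₁) := by positivity
  have t13 : (6 * K + 2 * C1) * (E₀ + E₁) + (6 * K + 2 * C1) * t =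
      6 * (K * E₀) + 6 * (K * E₁) + 2 * (C1 * (E₀ + E₁)) + 6 * (K * t) + 2 * (C1 * t) := by ring
  rw [t13]
  linarith

/-- `|A + B| ≤ C t`. -/
theorem stepC {a₁ D a β t w y₀ z₀ A B D₂ D₃ D₀ D₁ : ℝ} (ha₁ : 0 < a₁) (h1 : 0 < a)
    (h2 : a₁ ≤ 1 - a) (hβ : 0 < β) (hβ1 : β < 1) (ht : 0 < t) (ht1 : t < 1) (hD : 0 ≤ D)
    (hA : |A| ≤ 1) (hB : |B| ≤ 1)
    (l2 : 0 ≤ D₂) (u2 : D₂ ≤ D * t) (l3 : 0 ≤ D₃) (u3 : D₃ ≤ D * t) (l0 : 0 ≤ D₀)
    (u0 : D₀ ≤ D * t) (l1 : 0 ≤ D₁) (u1 : D₁ ≤ D * t)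
    (e1 : w = 1 - t * a * (D₀ - 1) - t * (1 - a) * (D₁ - 1))
    (e2 : y₀ = 1 - t * (1 - a) * A - (1 - t) * (1 - β) * (1 - D₃))
    (e3 : z₀ = 1 - t * (1 - a) * B - (1 - t) * β * (1 - D₂))
    (pr : w = y₀ * (1 - D₂) + z₀ * (1 - D₃)) :
    |A + B| ≤ (2 * ((2 + D) * D) + 2 * D) / a₁ * t := by
  have hb : 0 < 1 - a := by linarith
  have hb1 : 1 - a ≤ 1 := by linarith
  have hg : 0 < 1 - β := by linarith
  have ht' : 0 < 1 - t := by linarith
  have key : (1 - a) * t * (A + B) = (1 - β - z₀) * D₃ + (β - y₀) * D₂ -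
      t * ((1 - β) * D₃ + β * D₂) + t * (a * D₀ + (1 - a) * D₁) := by
    linear_combination e2 + e3 - e1 + pr
  have gen : ∀ {G V W : ℝ}, 0 < G → G < 1 → |V| ≤ 1 → 0 ≤ W → W ≤ D * t →
      |t * ((1 - a) * V) - t * G - (1 - t) * G * W| ≤ (2 + D) * t := by
    intro G V W hG hG1 hV hW hW1
    have i1 : |t * ((1 - a) * V)| ≤ t := by
      rw [abs_mul, abs_mul, abs_of_pos ht, abs_of_pos hb]
      have : (1 - a) * |V| ≤ 1 * 1 := mul_le_mul hb1 hV (abs_nonneg _) (by norm_num)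
      nlinarith
    have i2 : t * G ≤ t := by nlinarith
    have i2' : 0 ≤ t * G := by positivity
    have i3 : (1 - t) * G * W ≤ D * t := by
      have j : (1 - t) * G ≤ 1 := by nlinarith
      have : (1 - t) * G * W ≤ 1 * W := mul_le_mul_of_nonneg_right j hW
      linarith
    have i3' : 0 ≤ (1 - t) * G * W := by positivity
    have i4 := abs_le.1 i1
    rw [abs_le]
    constructor <;> nlinarith [i4.1, i4.2]
  have x1 : |1 - β - z₀| ≤ (2 + D) * t := by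
    have : 1 - β - z₀ = t * ((1 - a) * B) - t * β - (1 - t) * β * D₂ := by
      linear_combination -e3
    rw [this]
    exact gen hβ hβ1 hB l2 u2
  have x2 : |β - y₀| ≤ (2 + D) * t := by
    have : β - y₀ = t * ((1 - a) * A) - t * (1 - β) - (1 - t) * (1 - β) * D₃ := by
      linear_combination -e2
    rw [this]
    exact gen hg (by linarith) hA l3 u3
  have x3 : |(1 - β - z₀) * D₃| ≤ (2 + D) * t * (D * t) := by
    rw [abs_mul, abs_of_nonneg l3]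
    exact mul_le_mul x1 u3 l3 (by positivity)
  have x4 : |(β - y₀) * D₂| ≤ (2 + D) * t * (D * t) := by
    rw [abs_mul, abs_of_nonneg l2]
    exact mul_le_mul x2 u2 l2 (by positivity)
  have x5 : 0 ≤ t * ((1 - β) * D₃ + β * D₂) := by positivity
  have x5' : t * ((1 - β) * D₃ + β * D₂) ≤ t * (D * t) := by
    refine mul_le_mul_of_nonneg_left ?_ ht.le
    have i1 := mul_le_mul_of_nonneg_left u3 hg.le
    have i2 := mul_le_mul_of_nonneg_left u2 hβ.le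
    linarith
  have x6 : 0 ≤ t * (a * D₀ + (1 - a) * D₁) := by positivity
  have x6' : t * (a * D₀ + (1 - a) * D₁) ≤ t * (D * t) := by
    refine mul_le_mul_of_nonneg_left ?_ ht.le
    have i1 := mul_le_mul_of_nonneg_left u0 h1.le
    have i2 := mul_le_mul_of_nonneg_left u1 hb.le
    linarith
  have x7 : |(1 - a) * t * (A + B)| ≤ t * ((2 * ((2 + D) * D) + 2 * D) * t) := by
    rw [key]
    have i3 := abs_le.1 x3
    have i4 := abs_le.1 x4
    have i5 : t * ((2 * ((2 + D) * D) + 2 * D) * t) =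
        (2 + D) * t * (D * t) + (2 + D) * t * (D * t) + t * (D * t) + t * (D * t) := by ring
    rw [i5, abs_le]
    constructor <;> linarith [i3.1, i3.2, i4.1, i4.2]
  rw [abs_mul, abs_of_pos (mul_pos hb ht)] at x7
  have x8 : t * (a₁ * |A + B|) ≤ (1 - a) * t * |A + B| := by
    have : a₁ * (t * |A + B|) ≤ (1 - a) * (t * |A + B|) :=
      mul_le_mul_of_nonneg_right h2 (by positivity)
    linarith
  have x9 : a₁ * |A + B| ≤ (2 * ((2 + D) * D) + 2 * D) * t :=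
    le_of_mul_le_mul_left (x8.trans x7) ht
  rw [div_mul_eq_mul_div, le_div_iff₀ ha₁]
  linarith

/-- The differences of the cosines of the two blocks. -/
theorem stepE {m M S D t P X e E f d x F : ℝ} (hm : 0 < m) (hM : 0 ≤ M) (hS : 0 ≤ S)
    (ht : 0 < t) (hP : m ≤ P) (h : P * X = e * x + E * f - 2 * d * F)
    (he : |e| ≤ M * t ^ 2) (hx : |x| ≤ 6) (hE : |E| ≤ S * t) (hf : |f| ≤ 4 * t)
    (hd : |d| ≤ 8 * t) (hF : |F| ≤ D * t) :
    |X| ≤ (6 * M + 4 * S + 16 * D) / m * t ^ 2 := by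
  have h1 : |e * x| ≤ M * t ^ 2 * 6 := by
    rw [abs_mul]
    exact mul_le_mul he hx (abs_nonneg _) (by positivity)
  have h2 : |E * f| ≤ S * t * (4 * t) := by
    rw [abs_mul]
    exact mul_le_mul hE hf (abs_nonneg _) (by positivity)
  have h3 : |d * F| ≤ 8 * t * (D * t) := by
    rw [abs_mul]
    exact mul_le_mul hd hF (abs_nonneg _) (by positivity)
  have h4 : |P * X| ≤ (6 * M + 4 * S + 16 * D) * t ^ 2 := by
    rw [h, abs_le]
    have i1 := abs_le.1 h1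
    have i2 := abs_le.1 h2
    have i3 := abs_le.1 h3
    constructor <;> linarith [i1.1, i1.2, i2.1, i2.2, i3.1, i3.2]
  rw [abs_mul, abs_of_pos (hm.trans_le hP)] at h4
  have h5 : m * |X| ≤ P * |X| := mul_le_mul_of_nonneg_right hP (abs_nonneg _)
  rw [div_mul_eq_mul_div, le_div_iff₀ hm]
  linarith

theorem prod2 {c X Y : ℝ} (hc : 0 < c) (h : c / 2 ≤ X) (h' : c / 2 ≤ Y) :
    c ^ 2 / 2 ≤ 2 * X * Y := by
  have := mul_le_mul h h' (by linarith) (by linarith)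
  linarith

/-- **MMB** (bounds in the chart `MM`). -/
theorem mmb (hBD : BD) (hNB : NB) : MMB := by
  intro a₀ β₀ ha₀ ha₁ hβ₀ hβ₁
  obtain ⟨δ₁, hδ₁, ε₁, hε₁, C₁, hC⟩ := hNB a₀ β₀ ![0, 1, β₀, 1 - β₀, β₀, 1 - β₀] ha₀ ha₁ hβ₀ hβ₁
    rfl (by
      intro i hi
      fin_cases i
      · exact absurd rfl hi
      · exact one_pos
      · exact hβ₀
      · exact sub_pos.2 hβ₁
      · exact hβ₀
      · exact sub_pos.2 hβ₁)
  obtain ⟨c, hc, hcβ, hcg, hc1⟩ : ∃ c : ℝ, 0 < c ∧ c ≤ β₀ ∧ c ≤ 1 - β₀ ∧ c ≤ 1 :=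
    ⟨min β₀ (1 - β₀), lt_min hβ₀ (by linarith), min_le_left _ _, min_le_right _ _,
      (min_le_left _ _).trans hβ₁.le⟩
  obtain ⟨m, hm, hm0, hm1⟩ : ∃ m : ℝ, 0 < m ∧ 2 * m ≤ a₀ ∧ 2 * m ≤ 1 - a₀ :=
    ⟨min (a₀ / 2) ((1 - a₀) / 2), lt_min (by linarith) (by linarith),
      by linarith [min_le_left (a₀ / 2) ((1 - a₀) / 2)],
      by linarith [min_le_right (a₀ / 2) ((1 - a₀) / 2)]⟩
  obtain ⟨C, hC0, hCC⟩ : ∃ C : ℝ, 0 ≤ C ∧ C₁ ≤ C := ⟨max C₁ 0, le_max_right _ _, le_max_left _ _⟩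
  obtain ⟨K, hK0, hK⟩ : ∃ K : ℝ, 0 ≤ K ∧ K = 12 / c ^ 2 := ⟨_, by positivity, rfl⟩
  obtain ⟨S, hS0, hS⟩ : ∃ S : ℝ, 0 ≤ S ∧
      S = 2 * (6 * K + 2 * C) / (m * (c / 8) ^ 2 / 2) + 1 := ⟨_, by positivity, rfl⟩
  obtain ⟨D, hD0, hD⟩ : ∃ D : ℝ, 0 ≤ D ∧ D = K * S := ⟨_, by positivity, rfl⟩
  obtain ⟨Q, hQ0, hQ⟩ : ∃ Q : ℝ, 0 ≤ Q ∧ Q = (2 * ((2 + D) * D) + 2 * D) / m :=
    ⟨_, by positivity, rfl⟩
  obtain ⟨R, hR0, hR⟩ : ∃ R : ℝ, 0 ≤ R ∧
      R = (6 * (2 * Q + 4 * C) + 4 * S + 16 * D) / (c ^ 2 / 2) := ⟨_, by positivity, rfl⟩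
  refine ⟨min δ₁ (c / 8), lt_min hδ₁ (by linarith), min (min ε₁ (c / 8)) (min m (1 / 2)),
    lt_min (lt_min hε₁ (by linarith)) (lt_min hm (by norm_num)), 1 + C + D + Q + R, ?_⟩
  intro a β t v hN hv hL
  have hN1 : Near2 a₀ β₀ ε₁ a β t := hN.mono ((min_le_left _ _).trans (min_le_left _ _))
  have hN2 : Near2 a₀ β₀ (c / 8) a β t := hN.mono ((min_le_left _ _).trans (min_le_right _ _))
  have hN3 : Near2 a₀ β₀ m a β t := hN.mono ((min_le_right _ _).trans (min_le_left _ _))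
  have hN4 : Near2 a₀ β₀ (1 / 2) a β t := hN.mono ((min_le_right _ _).trans (min_le_right _ _))
  have ht := hN.t0
  have ht2 := hN4.t1
  have am := abs_lt.1 hN3.ha
  have bm := abs_lt.1 hN2.hb
  have ha : m ≤ a := by linarith [am.1]
  have hb : m ≤ 1 - a := by linarith [am.2]
  have a0 : 0 < a := by linarith
  have a1 : a < 1 := by linarith
  have b0 : 0 < β := by linarith [bm.1]
  have b1 : β < 1 := by linarith [bm.2]
  have bd := hBD a β t v a0 a1 b0 b1 ht (by linarith) hv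
  obtain ⟨n1, n2, n3, n4, n5, n6, n7, n8, n9, n10⟩ :=
    hC a β t v hN1 hv (fun i ↦ (hL i).trans_le (min_le_left _ _))
  have hL' : ∀ i, |v i - (![0, 1, β₀, 1 - β₀, β₀, 1 - β₀] : Fin 6 → ℝ) i| < c / 8 :=
    fun i ↦ (hL i).trans_le (min_le_right _ _)
  have L1 : |v 1 - 1| < c / 8 := hL' 1
  have L2 : |v 2 - β₀| < c / 8 := hL' 2
  have L3 : |v 3 - (1 - β₀)| < c / 8 := hL' 3
  have L4 : |v 4 - β₀| < c / 8 := hL' 4
  have L5 : |v 5 - (1 - β₀)| < c / 8 := hL' 5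
  rw [abs_lt] at L1 L2 L3 L4 L5
  obtain ⟨L1, L1'⟩ := L1
  obtain ⟨L2, L2'⟩ := L2
  obtain ⟨L3, L3'⟩ := L3
  obtain ⟨L4, L4'⟩ := L4
  obtain ⟨L5, L5'⟩ := L5
  have p := hv.pos
  obtain ⟨f1, f2, f3, f4, f5, f6, f7, f8, f9⟩ := fac (w := v 1) (y := v 2) (z := v 3) hc hc1
    (by linarith) (by linarith) (by linarith) (by linarith) (by linarith) (by linarith)
    (by linarith) (by linarith) (by linarith [bd.s0.1])
  obtain ⟨g1, g2, g3, g4, g5, g6, g7, g8, g9⟩ := fac (w := v 1) (y := v 4) (z := v 5) hc hc1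
    (by linarith) (by linarith) (by linarith) (by linarith) (by linarith) (by linarith)
    (by linarith) (by linarith) (by linarith [bd.s1.1])
  rw [← hK] at f5 f7 f9 g5 g7 g9
  have E0 : 0 ≤ v 2 + v 3 - v 1 := by linarith [bd.s0.1]
  have E1 : 0 ≤ v 4 + v 5 - v 1 := by linarith [bd.s1.1]
  -- the cosines are in `[-1, 1]`
  have cA : |cs (v 0) (v 4) (v 2)| ≤ 1 :=
    abs_le.2 ⟨le_cs (p 0) (p 4) (p 2) bd.t2.rot.rot.swap, cs_le (p 0) (p 4) (p 2) bd.t2.rot.rot.swap⟩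
  have cA' : |cs (v 0) (v 2) (v 4)| ≤ 1 :=
    abs_le.2 ⟨le_cs (p 0) (p 2) (p 4) bd.t2, cs_le (p 0) (p 2) (p 4) bd.t2⟩
  have cB : |cs (v 0) (v 5) (v 3)| ≤ 1 :=
    abs_le.2 ⟨le_cs (p 0) (p 5) (p 3) bd.t3.rot.rot.swap, cs_le (p 0) (p 5) (p 3) bd.t3.rot.rot.swap⟩
  have cB' : |cs (v 0) (v 3) (v 5)| ≤ 1 :=
    abs_le.2 ⟨le_cs (p 0) (p 3) (p 5) bd.t3, cs_le (p 0) (p 3) (p 5) bd.t3⟩
  have c2 := le_cs (p 1) (p 2) (p 3) bd.s0
  have c2' := le_cs (p 1) (p 4) (p 5) bd.s1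
  have hCt : C₁ * t ≤ C * t := mul_le_mul_of_nonneg_right hCC ht.le
  have hCt2 : C₁ * t ^ 2 ≤ C * t ^ 2 := mul_le_mul_of_nonneg_right hCC (by positivity)
  have s0 := star0 hv
  have s1 := star1 hv
  have hSt : (v 2 + v 3 - v 1) + (v 4 + v 5 - v 1) ≤ S * t := by
    rw [hS]
    exact stepA (D₂ := 1 - cs (v 1) (v 2) (v 3)) (D₃ := 1 - cs (v 1) (v 3) (v 2))
      (D₀ := 1 + cs (v 2) (v 3) (v 1)) (F₂ := 1 - cs (v 1) (v 4) (v 5))
      (F₃ := 1 - cs (v 1) (v 5) (v 4)) (D₁ := 1 + cs (v 4) (v 5) (v 1))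
      hm ha hb (by linarith) hK0 hC0 ht E0 E1 cA cB cA' cB' (n9.trans hCt) (n10.trans hCt)
      f4 f5 (by linarith) f6 f7 f9 g4 g5 (by linarith) g6 g7 g9
      (by rw [s0]; ring) (by rw [s1]; ring)
  have hE0 : v 2 + v 3 - v 1 ≤ S * t := by linarith
  have hE1 : v 4 + v 5 - v 1 ≤ S * t := by linarith
  have hD0t : K * (v 2 + v 3 - v 1) ≤ D * t := by
    rw [hD, mul_assoc]
    exact mul_le_mul_of_nonneg_left hE0 hK0
  have hD1t : K * (v 4 + v 5 - v 1) ≤ D * t := by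
    rw [hD, mul_assoc]
    exact mul_le_mul_of_nonneg_left hE1 hK0
  have c8 : 0 ≤ c / 8 := by linarith
  have d2 : 0 ≤ 1 - cs (v 1) (v 2) (v 3) := (mul_nonneg c8 E0).trans f4
  have d3 : 0 ≤ 1 - cs (v 1) (v 3) (v 2) := (mul_nonneg c8 E0).trans f6
  have pr := proj (p 2) (p 3) (p 1)
  rw [Helper83.EIN2.cs_comm (v 2) (v 1), Helper83.EIN2.cs_comm (v 3) (v 1)] at pr
  have hQt : |cs (v 0) (v 4) (v 2) + cs (v 0) (v 5) (v 3)| ≤ Q * t := by
    rw [hQ]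
    exact stepC (D₂ := 1 - cs (v 1) (v 2) (v 3)) (D₃ := 1 - cs (v 1) (v 3) (v 2))
      (D₀ := 1 + cs (v 2) (v 3) (v 1)) (D₁ := 1 + cs (v 4) (v 5) (v 1)) (w := v 1) (y₀ := v 2)
      (z₀ := v 3) (β := β)
      hm a0 hb b0 b1 ht (by linarith) hD0 cA cB d2 (f5.trans hD0t) d3 (f7.trans hD0t) f8
      (f9.trans hD0t) g8 (g9.trans hD1t)
      (by linear_combination hv.e1) (by linear_combination hv.e2) (by linear_combination hv.e3)
      (by linear_combination pr)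
  -- the differences of the lengths
  have pA := proj (p 0) (p 2) (p 4)
  have pB := proj (p 0) (p 3) (p 5)
  have y2 : v 2 ≤ 2 := by linarith
  have z2 : v 3 ≤ 2 := by linarith
  have hdE : |(v 4 + v 5 - v 1) - (v 2 + v 3 - v 1)| ≤ (2 * Q + 4 * C) * t ^ 2 := by
    have e : (v 4 + v 5 - v 1) - (v 2 + v 3 - v 1) =
        v 0 * (cs (v 0) (v 4) (v 2) + cs (v 0) (v 5) (v 3)) - v 2 * (1 - cs (v 2) (v 4) (v 0)) -
          v 3 * (1 - cs (v 3) (v 5) (v 0)) := by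
      linear_combination pA + pB
    have i1 : |v 0 * (cs (v 0) (v 4) (v 2) + cs (v 0) (v 5) (v 3))| ≤ 2 * t * (Q * t) := by
      rw [abs_mul, abs_of_pos (p 0)]
      exact mul_le_mul n2 hQt (abs_nonneg _) (by positivity)
    have i2 : v 2 * (1 - cs (v 2) (v 4) (v 0)) ≤ 2 * (C * t ^ 2) :=
      mul_le_mul y2 (n4.trans hCt2) n3 (by norm_num)
    have i2' := mul_nonneg (p 2).le n3
    have i3 : v 3 * (1 - cs (v 3) (v 5) (v 0)) ≤ 2 * (C * t ^ 2) :=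
      mul_le_mul z2 (n6.trans hCt2) n5 (by norm_num)
    have i3' := mul_nonneg (p 3).le n5
    have i4 := abs_le.1 i1
    have i5 : (2 * Q + 4 * C) * t ^ 2 = 2 * t * (Q * t) + 2 * (C * t ^ 2) + 2 * (C * t ^ 2) := by
      ring
    have i6 : 0 ≤ C * t ^ 2 := by positivity
    rw [e, i5, abs_le]
    constructor <;> linarith [i4.1, i4.2]
  have n7' := abs_le.1 n7
  have n8' := abs_le.1 n8
  obtain ⟨n7a, n7b⟩ := n7'
  obtain ⟨n8a, n8b⟩ := n8'
  have hE0' : |v 2 + v 3 - v 1| ≤ S * t := by rwa [abs_of_nonneg E0]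
  have hM : 0 ≤ 2 * Q + 4 * C := by positivity
  have wy : c ^ 2 / 2 ≤ 2 * v 1 * v 4 := prod2 hc (by linarith) (by linarith)
  have wz : c ^ 2 / 2 ≤ 2 * v 1 * v 5 := prod2 hc (by linarith) (by linarith)
  have yz : c ^ 2 / 2 ≤ 2 * v 4 * v 5 := prod2 hc (by linarith) (by linarith)
  have w2 : |v 1| ≤ 2 := by rw [abs_of_pos (p 1)]; linarith
  have q5 : |(1 - cs (v 1) (v 4) (v 5)) - (1 - cs (v 1) (v 2) (v 3))| ≤ R * t ^ 2 := by
    rw [hR]
    refine stepE (P := 2 * v 1 * v 4) (e := (v 4 + v 5 - v 1) - (v 2 + v 3 - v 1))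
      (E := v 2 + v 3 - v 1) (f := (v 5 - v 3) - (v 4 - v 2)) (d := v 1 * (v 4 - v 2))
      (x := v 5 + v 1 - v 4) (F := 1 - cs (v 1) (v 2) (v 3))
      (by positivity) hM hS0 ht wy ?_ hdE ?_ hE0' ?_ ?_ ?_
    · linear_combination g1 - f1
    · rw [abs_le]; constructor <;> linarith
    · rw [abs_le]; constructor <;> linarith
    · rw [abs_mul]
      exact (mul_le_mul w2 n7 (abs_nonneg _) (by norm_num)).trans (by linarith)
    · rw [abs_of_nonneg d2]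
      exact f5.trans hD0t
  have q6 : |(1 - cs (v 1) (v 5) (v 4)) - (1 - cs (v 1) (v 3) (v 2))| ≤ R * t ^ 2 := by
    rw [hR]
    refine stepE (P := 2 * v 1 * v 5) (e := (v 4 + v 5 - v 1) - (v 2 + v 3 - v 1))
      (E := v 2 + v 3 - v 1) (f := (v 4 - v 2) - (v 5 - v 3)) (d := v 1 * (v 5 - v 3))
      (x := v 4 + v 1 - v 5) (F := 1 - cs (v 1) (v 3) (v 2))
      (by positivity) hM hS0 ht wz ?_ hdE ?_ hE0' ?_ ?_ ?_
    · linear_combination g2 - f2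
    · rw [abs_le]; constructor <;> linarith
    · rw [abs_le]; constructor <;> linarith
    · rw [abs_mul]
      exact (mul_le_mul w2 n8 (abs_nonneg _) (by norm_num)).trans (by linarith)
    · rw [abs_of_nonneg d3]
      exact f7.trans hD0t
  have q7 : |(1 + cs (v 4) (v 5) (v 1)) - (1 + cs (v 2) (v 3) (v 1))| ≤ R * t ^ 2 := by
    rw [hR]
    refine stepE (P := 2 * v 4 * v 5) (e := (v 4 + v 5 - v 1) - (v 2 + v 3 - v 1))
      (E := v 2 + v 3 - v 1) (f := (v 4 - v 2) + (v 5 - v 3))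
      (d := (v 4 - v 2) * v 5 + v 2 * (v 5 - v 3))
      (x := v 4 + v 5 + v 1) (F := 1 + cs (v 2) (v 3) (v 1))
      (by positivity) hM hS0 ht yz ?_ hdE ?_ hE0' ?_ ?_ ?_
    · linear_combination g3 - f3
    · rw [abs_le]; constructor <;> linarith
    · rw [abs_le]; constructor <;> linarith
    · have i1 : |(v 4 - v 2) * v 5| ≤ 2 * t * 2 := by
        rw [abs_mul, abs_of_pos (p 5)]
        exact mul_le_mul n7 (by linarith) (p 5).le (by positivity)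
      have i2 : |v 2 * (v 5 - v 3)| ≤ 2 * (2 * t) := by
        rw [abs_mul, abs_of_pos (p 2)]
        exact mul_le_mul y2 n8 (abs_nonneg _) (by norm_num)
      exact (abs_add_le _ _).trans (by linarith)
    · rw [abs_of_nonneg f8]
      exact f9.trans hD0t
  -- conclusion
  have ht0 : t ≠ 0 := ht.ne'
  have one : ∀ {X W : ℝ}, |X| ≤ W * t → W ≤ 1 + C + D + Q + R → |X / t| ≤ 1 + C + D + Q + R := by
    intro X W hX hW
    rw [abs_div, abs_of_pos ht, div_le_iff₀ ht]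
    exact hX.trans (mul_le_mul_of_nonneg_right hW ht.le)
  have two : ∀ {X W : ℝ}, |X| ≤ W * t ^ 2 → W ≤ 1 + C + D + Q + R →
      |X / t ^ 2| ≤ 1 + C + D + Q + R := by
    intro X W hX hW
    have ht2 : 0 < t ^ 2 := by positivity
    rw [abs_div, abs_of_pos ht2, div_le_iff₀ ht2]
    exact hX.trans (mul_le_mul_of_nonneg_right hW ht2.le)
  intro i
  fin_cases i
  · exact cA.trans (by linarith)
  · exact one hQt (by linarith)
  · exact one (W := D) (by rw [abs_of_nonneg d2]; exact f5.trans hD0t) (by linarith)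
  · exact one (W := D) (by rw [abs_of_nonneg d3]; exact f7.trans hD0t) (by linarith)
  · exact one (W := D) (by rw [abs_of_nonneg f8]; exact f9.trans hD0t) (by linarith)
  · refine two (W := R) ?_ (by linarith)
    have : cs (v 1) (v 2) (v 3) - cs (v 1) (v 4) (v 5) =
        (1 - cs (v 1) (v 4) (v 5)) - (1 - cs (v 1) (v 2) (v 3)) := by ring
    rw [this]
    exact q5
  · refine two (W := R) ?_ (by linarith)
    have : cs (v 1) (v 3) (v 2) - cs (v 1) (v 5) (v 4) =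
        (1 - cs (v 1) (v 5) (v 4)) - (1 - cs (v 1) (v 3) (v 2)) := by ring
    rw [this]
    exact q6
  · refine two (W := R) ?_ (by linarith)
    have : cs (v 4) (v 5) (v 1) - cs (v 2) (v 3) (v 1) =
        (1 + cs (v 4) (v 5) (v 1)) - (1 + cs (v 2) (v 3) (v 1)) := by ring
    rw [this]
    exact q7
  · exact two (W := C) (by rw [abs_of_nonneg n3]; exact n4.trans hCt2) (by linarith)
  · exact two (W := C) (by rw [abs_of_nonneg n5]; exact n6.trans hCt2) (by linarith)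
  · exact one (W := C) (n9.trans hCt) (by linarith)
  · exact one (W := C) (n10.trans hCt) (by linarith)

end Pool.Agent.Helper93.EIN2
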